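import Pool.Agent.H82.KT.TC

/-!
MP_ee74d2_an, theorem KT, row BOX: functions with velocities in a box.
-/

set_option autoImplicit false

namespace Pool.Agent.H95.KTN

open Pool.Agent.H82.KT

theorem pf_BOX : T_BOX := by
  classical
  intro ι _ τ G W c r f hr hf hfib hG
  set t : Finset (ι → ℤ) := Fintype.piFinset fun i => Finset.Icc ⌊c i - r⌋ ⌊c i + r⌋ with ht
  have hmap : ∀ g ∈ G, (fun i => ⌊W g i⌋) ∈ t := by
    intro g hg
    rw [ht, Fintype.mem_piFinset]
    intro i
    have h1 := abs_le.1 (hG g hg i)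
    rw [Finset.mem_Icc]
    exact ⟨Int.floor_le_floor (by linarith [h1.1]), Int.floor_le_floor (by linarith [h1.2])⟩
  have h1 : G.card = ∑ w ∈ t, (G.filter fun g => (fun i => ⌊W g i⌋) = w).card :=
    Finset.card_eq_sum_card_fiberwise hmap
  have h2 : (G.card : ℝ) = ∑ w ∈ t, ((G.filter fun g => (fun i => ⌊W g i⌋) = w).card : ℝ) := by
    exact_mod_cast h1
  have h3 : (t.card : ℝ) ≤ (2 * r + 2) ^ Fintype.card ι := by
    rw [ht, Fintype.card_piFinset]
    push_cast
    have h4 : ∀ i ∈ (Finset.univ : Finset ι),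
        ((Finset.Icc ⌊c i - r⌋ ⌊c i + r⌋).card : ℝ) ≤ 2 * r + 2 := by
      intro i _
      rw [Int.card_Icc]
      have h5 : ((⌊c i + r⌋ + 1 - ⌊c i - r⌋).toNat : ℝ) =
          ((⌊c i + r⌋ + 1 - ⌊c i - r⌋ : ℤ) : ℝ) := by
        have h6 : 0 ≤ ⌊c i + r⌋ + 1 - ⌊c i - r⌋ := by
          have := Int.floor_le_floor (show c i - r ≤ c i + r by linarith)
          omega
        exact_mod_cast Int.toNat_of_nonneg h6
      rw [h5]
      push_cast
      have h7 := Int.floor_le (c i + r)
      have h8 := Int.lt_floor_add_one (c i - r)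
      linarith
    refine (Finset.prod_le_prod (fun i _ => Nat.cast_nonneg _) h4).trans (le_of_eq ?_)
    rw [Finset.prod_const, Finset.card_univ]
  rw [h2]
  calc _ ≤ ∑ w ∈ t, f := Finset.sum_le_sum fun w _ => by convert hfib w
    _ = (t.card : ℝ) * f := by rw [Finset.sum_const, nsmul_eq_mul]
    _ ≤ _ := by gcongr

end Pool.Agent.H95.KTN
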