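import Pool.Agent.H82.KT.TC

/-!
MP_ee74d2_an, theorem KT, row FIB: the last time of a pattern.
-/

set_option autoImplicit false

namespace Pool.Agent.H95.KTN

open Pool.Agent.H82.KT

/-- a set of integers of small diameter -/
theorem card_of_diam (F : Finset ℤ) (D : ℝ) (hD : 0 ≤ D)
    (h : ∀ u ∈ F, ∀ v ∈ F, |((u : ℝ) - v)| ≤ D) : (F.card : ℝ) ≤ D + 1 := by
  rcases F.eq_empty_or_nonempty with rfl | hne
  · simp
    linarith
  have h1 : F ⊆ Finset.Icc (F.min' hne) (F.max' hne) := fun u hu =>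
    Finset.mem_Icc.2 ⟨F.min'_le u hu, F.le_max' u hu⟩
  have h2 := Finset.card_le_card h1
  rw [Int.card_Icc] at h2
  have h3 : F.min' hne ≤ F.max' hne := F.min'_le _ (F.max'_mem hne)
  have h4 : ((F.max' hne + 1 - F.min' hne).toNat : ℝ) =
      ((F.max' hne + 1 - F.min' hne : ℤ) : ℝ) := by
    exact_mod_cast Int.toNat_of_nonneg (by omega)
  have h5 : (F.card : ℝ) ≤ ((F.max' hne + 1 - F.min' hne).toNat : ℝ) := by exact_mod_cast h2
  rw [h4] at h5
  push_cast at h5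
  have h6 := (abs_le.1 (h _ (F.max'_mem hne) _ (F.min'_mem hne))).2
  linarith

theorem Ph_sub_mul (s x a b b' : ℤ) (ha : (a : ℝ) - s ≠ 0) (hb : (b : ℝ) - s ≠ 0)
    (hb' : (b' : ℝ) - s ≠ 0) :
    (Ph s x a b - Ph s x a b') * (((a : ℝ) - s) * (b - s) * (b' - s)) =
      ((s : ℝ) - x) * (b' - b) := by
  unfold Ph
  field_simp
  ring

theorem pf_FIB : T_FIB := by
  classical
  intro I J ω c s x a hJ hω hω1 hI hs ha
  have hω3 : 2 / ω + 1 ≤ 3 / ω := by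
    have h1 : 1 ≤ 1 / ω := by
      rw [le_div_iff₀ hω]
      linarith
    have h2 : 3 / ω = 2 / ω + 1 / ω := by ring
    rw [h2]
    linarith
  refine (card_of_diam _ (2 / ω) (by positivity) ?_).trans hω3
  intro b hb b' hb'
  rw [Finset.mem_filter] at hb hb'
  obtain ⟨hbI, ⟨hx, hA, hB, hbx⟩, hP⟩ := hb
  obtain ⟨hbI', ⟨-, -, hB', hbx'⟩, hP'⟩ := hb'
  have hωJ : 0 < ω * J := mul_pos hω hJ
  have ha0 : (a : ℝ) - s ≠ 0 := abs_pos.1 (hωJ.trans hA)
  have hb0 : (b : ℝ) - s ≠ 0 := abs_pos.1 (hωJ.trans hB)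
  have hb0' : (b' : ℝ) - s ≠ 0 := abs_pos.1 (hωJ.trans hB')
  have key := Ph_sub_mul s x a b b' ha0 hb0 hb0'
  have h1 : |Ph s x a b - Ph s x a b'| ≤ 2 / J ^ 2 := by
    have e1 := abs_le.1 hP
    have e2 := abs_le.1 hP'
    have e3 : 2 / J ^ 2 = 1 / J ^ 2 + 1 / J ^ 2 := by ring
    rw [e3, abs_le]
    constructor <;> linarith [e1.1, e1.2, e2.1, e2.2]
  have h2 : |((a : ℝ) - s) * (b - s) * (b' - s)| ≤ J * J * J := by
    rw [abs_mul, abs_mul]
    have e1 := hI a ha s hs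
    have e2 := hI b hbI s hs
    have e3 := hI b' hbI' s hs
    gcongr
  have h3 : |(s : ℝ) - x| * |(b' : ℝ) - b| ≤ 2 * J := by
    rw [← abs_mul, ← key, abs_mul]
    calc _ ≤ 2 / J ^ 2 * (J * J * J) := by gcongr
      _ = 2 * J := by
        field_simp
  have h4 : ω * J * |(b' : ℝ) - b| ≤ 2 * J :=
    (mul_le_mul_of_nonneg_right hx.le (abs_nonneg _)).trans h3
  rw [abs_sub_comm, le_div_iff₀ hω]
  have h5 : J * (|(b' : ℝ) - b| * ω) ≤ J * 2 := by linarith [h4]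
  exact le_of_mul_le_mul_left h5 hJ

end Pool.Agent.H95.KTN
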