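import Pool.Agent.H82.KT.TC

/-!
MP_ee74d2_an, theorem KT, row SEP: the times `b, b'` of a pattern are far from each other.
-/

set_option autoImplicit false

namespace Pool.Agent.H95.KTN

open Pool.Agent.H82.KT

theorem Ph_sub_mul' (s x a b a' b' : ℤ) (ha : (a : ℝ) - s ≠ 0) (hb : (b : ℝ) - s ≠ 0)
    (ha' : (a' : ℝ) - s ≠ 0) (hb' : (b' : ℝ) - s ≠ 0) :
    ((s : ℝ) - x) * (b' - b) * (a - s) =
      (a' - s) * (b - s) * (b' - s) * (a - s) * (Ph s x a b - Ph s x a' b') -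
        ((a' : ℝ) - a) * (b - x) * (b' - s) := by
  unfold Ph
  field_simp
  ring

theorem pf_SEP : T_SEP := by
  intro J ω ρ s x a b a' b' hJ hω hω1 hρ h2 hsix hpat
  obtain ⟨⟨hX, hA, hB, hBX⟩, ⟨-, hA', hB', hBX'⟩, hP, hAA⟩ := hpat
  have hωJ : 0 < ω * J := mul_pos hω hJ
  have ha0 : (a : ℝ) - s ≠ 0 := abs_pos.1 (hωJ.trans hA)
  have hb0 : (b : ℝ) - s ≠ 0 := abs_pos.1 (hωJ.trans hB)
  have ha0' : (a' : ℝ) - s ≠ 0 := abs_pos.1 (hωJ.trans hA')
  have hb0' : (b' : ℝ) - s ≠ 0 := abs_pos.1 (hωJ.trans hB')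
  have key := Ph_sub_mul' s x a b a' b' ha0 hb0 ha0' hb0'
  have hs6 : s ∈ six s x a b a' b' := by simp [six]
  have hx6 : x ∈ six s x a b a' b' := by simp [six]
  have ha6 : a ∈ six s x a b a' b' := by simp [six]
  have hb6 : b ∈ six s x a b a' b' := by simp [six]
  have ha6' : a' ∈ six s x a b a' b' := by simp [six]
  have hb6' : b' ∈ six s x a b a' b' := by simp [six]
  have eX := hsix s hs6 x hx6
  have eA := hsix a ha6 s hs6
  have eB := hsix b hb6 s hs6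
  have eA' := hsix a' ha6' s hs6
  have eB' := hsix b' hb6' s hs6
  set X : ℝ := |(s : ℝ) - x| with hXd
  set A : ℝ := |(a : ℝ) - s| with hAd
  have hA0 : 0 < A := hωJ.trans hA
  have hX0 : 0 < X := hωJ.trans hX
  -- the main inequality
  have h3 : |((a' : ℝ) - a) * (b - x) * (b' - s)| ≤
      |((s : ℝ) - x) * (b' - b) * (a - s)| +
        |((a' : ℝ) - s) * (b - s) * (b' - s) * (a - s) * (Ph s x a b - Ph s x a' b')| := by
    have e : ((a' : ℝ) - a) * (b - x) * (b' - s) =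
        -(((s : ℝ) - x) * (b' - b) * (a - s)) +
        ((a' : ℝ) - s) * (b - s) * (b' - s) * (a - s) * (Ph s x a b - Ph s x a' b') := by
      linarith [key]
    rw [e]
    refine (abs_add_le _ _).trans ?_
    rw [abs_neg]
  have h4 : |((a' : ℝ) - s) * (b - s) * (b' - s) * (a - s) * (Ph s x a b - Ph s x a' b')| ≤
      A * J := by
    rw [abs_mul, abs_mul, abs_mul, abs_mul]
    calc _ ≤ J * J * J * A * (1 / J ^ 2) := by gcongr
      _ = A * J := by field_simp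
  have h5 : ρ * J * (ω * J) * (ω * J) ≤ |((a' : ℝ) - a) * (b - x) * (b' - s)| := by
    rw [abs_mul, abs_mul, abs_sub_comm (a' : ℝ) a]
    gcongr
  have h6 : |((s : ℝ) - x) * (b' - b) * (a - s)| = X * |(b : ℝ) - b'| * A := by
    rw [abs_mul, abs_mul, abs_sub_comm (b' : ℝ) b]
  rw [h6] at h3
  by_contra hcon
  push Not at hcon
  have h7 : ρ * J * (ω * J) * (ω * J) ≤ X * (ρ * ω ^ 2 / 2 * J) * A + A * J := by
    have e1 : X * |(b : ℝ) - b'| * A ≤ X * (ρ * ω ^ 2 / 2 * J) * A := by gcongr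
    linarith
  have h8 : X * (ρ * ω ^ 2 * J) * A ≤ ρ * J * (ω * J) * (ω * J) := by
    calc X * (ρ * ω ^ 2 * J) * A ≤ J * (ρ * ω ^ 2 * J) * J := by gcongr
      _ = ρ * J * (ω * J) * (ω * J) := by ring
  have h9 : (A * J) * (X * (ρ * ω ^ 2) / 2) ≤ (A * J) * 1 := by
    have e : X * (ρ * ω ^ 2 * J) * A = 2 * (A * J) * (X * (ρ * ω ^ 2) / 2) := by ring
    have e' : X * (ρ * ω ^ 2 / 2 * J) * A = (A * J) * (X * (ρ * ω ^ 2) / 2) := by ring
    linarith
  have h10 := le_of_mul_le_mul_left h9 (mul_pos hA0 hJ)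
  have h12 : (ω * J) * (ρ * ω ^ 2) = ρ * ω ^ 3 * J := by ring
  have h11 : 1 < X * (ρ * ω ^ 2) / 2 := by
    calc (1 : ℝ) ≤ (ω * J) * (ρ * ω ^ 2) / 2 := by linarith
      _ < X * (ρ * ω ^ 2) / 2 := by gcongr
  linarith

end Pool.Agent.H95.KTN
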